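import Pool.Agent.H65.CRZ.TL

/-!
MP_347b49_nt, board crz_modules, row RP: rules for the integral of the logarithmic derivative.
-/

set_option autoImplicit false

open Complex Filter Topology MeasureTheory Set

namespace Pool.Agent.H42.CRZ

open Pool.Agent.H65.CRZ

theorem ld_mul {f g : ℂ → ℂ} {s : ℂ} (hf : AnalyticAt ℂ f s) (hg : AnalyticAt ℂ g s)
    (hf0 : f s ≠ 0) (hg0 : g s ≠ 0) : ld (fun s => f s * g s) s = ld f s + ld g s := by
  unfold ld
  rw [deriv_fun_mul hf.differentiableAt hg.differentiableAt]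
  field_simp

theorem ld_cont {f : ℂ → ℂ} {s : ℂ} (hf : AnalyticAt ℂ f s) (hf0 : f s ≠ 0) :
    ContinuousAt (ld f) s := hf.deriv.continuousAt.div hf.continuousAt hf0

theorem int_add (f g : ℂ → ℂ) (γ : ℝ → ℂ) (hγ : Continuous γ) (a b : ℝ) (hab : a ≤ b)
    (H : ∀ x ∈ Icc a b, AnalyticAt ℂ f (γ x) ∧ AnalyticAt ℂ g (γ x) ∧ f (γ x) ≠ 0 ∧ g (γ x) ≠ 0)
    (L : ℂ → ℝ) (hL : Continuous L) (hadd : ∀ z w, L (z + w) = L z + L w) :
    ∫ x in a..b, L (ld (fun s => f s * g s) (γ x)) =
      (∫ x in a..b, L (ld f (γ x))) + ∫ x in a..b, L (ld g (γ x)) := by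
  have hint : ∀ h : ℂ → ℂ, (∀ x ∈ Icc a b, AnalyticAt ℂ h (γ x) ∧ h (γ x) ≠ 0) →
      IntervalIntegrable (fun x => L (ld h (γ x))) volume a b := by
    intro h hh
    refine ContinuousOn.intervalIntegrable ?_
    intro x hx
    rw [uIcc_of_le hab] at hx
    obtain ⟨h1, h2⟩ := hh x hx
    exact (hL.continuousAt.comp ((ld_cont h1 h2).comp hγ.continuousAt)).continuousWithinAt
  rw [← intervalIntegral.integral_add (hint f fun x hx => ⟨(H x hx).1, (H x hx).2.2.1⟩)
    (hint g fun x hx => ⟨(H x hx).2.1, (H x hx).2.2.2⟩)]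
  refine intervalIntegral.integral_congr fun x hx => ?_
  rw [uIcc_of_le hab] at hx
  obtain ⟨h1, h2, h3, h4⟩ := H x hx
  show L (ld (fun s => f s * g s) (γ x)) = L (ld f (γ x)) + L (ld g (γ x))
  rw [ld_mul h1 h2 h3 h4, hadd]

theorem ld_const (A : ℝ) (hA : 0 < A) (s : ℂ) :
    ld (fun s => (A : ℂ) ^ s) s = ((Real.log A : ℝ) : ℂ) := by
  have hAC : (A : ℂ) ≠ 0 := ofReal_ne_zero.2 hA.ne'
  have h1 : HasDerivAt (fun s : ℂ => (A : ℂ) ^ s) ((A : ℂ) ^ s * Complex.log A * 1) s :=
    (hasDerivAt_id s).const_cpow (Or.inl hAC)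
  have h2 : (A : ℂ) ^ s ≠ 0 := by
    rw [cpow_def_of_ne_zero hAC]
    exact exp_ne_zero _
  unfold ld
  rw [h1.deriv, ofReal_log hA.le]
  field_simp

theorem ld_cmul (f : ℂ → ℂ) (c : ℂ) (hc : c ≠ 0) (s : ℂ) : ld (fun s => c * f s) s = ld f s := by
  unfold ld
  rw [deriv_const_mul_field, mul_div_mul_left _ _ hc]

theorem pf_RP : T_RP := by
  refine ⟨?_, ?_, ?_, ?_⟩
  · intro f g a b t₁ t₂ hab ht H
    have h1 := int_add f g (fun x => (x : ℂ) + t₁ * I) (by fun_prop) a b hab
      (fun x hx => H _ (Or.inl ⟨by simpa using hx.1, by simpa using hx.2, Or.inl (by simp)⟩))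
      Complex.im Complex.continuous_im Complex.add_im
    have h2 := int_add f g (fun x => (x : ℂ) + t₂ * I) (by fun_prop) a b hab
      (fun x hx => H _ (Or.inl ⟨by simpa using hx.1, by simpa using hx.2, Or.inr (by simp)⟩))
      Complex.im Complex.continuous_im Complex.add_im
    have h3 := int_add f g (fun t => (b : ℂ) + t * I) (by fun_prop) t₁ t₂ ht
      (fun x hx => H _ (Or.inr ⟨by simp, by simpa using hx.1, by simpa using hx.2⟩))
      Complex.re Complex.continuous_re Complex.add_re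
    unfold rp
    rw [h1, h2, h3]
    ring
  · intro f a b t₁ t₂ C hab ht H
    have h1 := intervalIntegral.norm_integral_le_of_norm_le_const (a := a) (b := b) (C := C)
      (f := fun x => (ld f (x + t₁ * I)).im) (fun x hx => by
        rw [uIoc_of_le hab] at hx
        rw [Real.norm_eq_abs]
        exact (Complex.abs_im_le_norm _).trans
          (H _ (Or.inl ⟨by simpa using hx.1.le, by simpa using hx.2, Or.inl (by simp)⟩)))
    have h2 := intervalIntegral.norm_integral_le_of_norm_le_const (a := a) (b := b) (C := C)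
      (f := fun x => (ld f (x + t₂ * I)).im) (fun x hx => by
        rw [uIoc_of_le hab] at hx
        rw [Real.norm_eq_abs]
        exact (Complex.abs_im_le_norm _).trans
          (H _ (Or.inl ⟨by simpa using hx.1.le, by simpa using hx.2, Or.inr (by simp)⟩)))
    have h3 := intervalIntegral.norm_integral_le_of_norm_le_const (a := t₁) (b := t₂) (C := C)
      (f := fun t => (ld f (b + t * I)).re) (fun x hx => by
        rw [uIoc_of_le ht] at hx
        rw [Real.norm_eq_abs]
        exact (Complex.abs_re_le_norm _).trans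
          (H _ (Or.inr ⟨by simp, by simpa using hx.1.le, by simpa using hx.2⟩)))
    rw [abs_of_nonneg (sub_nonneg.2 hab), Real.norm_eq_abs] at h1 h2
    rw [abs_of_nonneg (sub_nonneg.2 ht), Real.norm_eq_abs] at h3
    obtain ⟨h1a, h1b⟩ := abs_le.1 h1
    obtain ⟨h2a, h2b⟩ := abs_le.1 h2
    obtain ⟨h3a, h3b⟩ := abs_le.1 h3
    unfold rp
    rw [abs_le]
    constructor <;> nlinarith
  · intro A a b t₁ t₂ hA
    unfold rp
    simp only [ld_const A hA, ofReal_im, ofReal_re, intervalIntegral.integral_const, smul_eq_mul,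
      mul_zero, zero_add, sub_zero]
  · intro f c a b t₁ t₂ hc
    unfold rp
    simp only [ld_cmul f c hc]

end Pool.Agent.H42.CRZ
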