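import Pool.Agent.H65.CRZ.TL

/-!
MP_347b49_nt, board crz_modules, row ZM: rules for the number of zeros.
-/

set_option autoImplicit false

open Complex Filter Topology MeasureTheory Set

namespace Pool.Agent.H42.CRZ

open Pool.Agent.H65.CRZ

theorem zc_eq {f : ℂ → ℂ} {S : Set ℂ} (h : {ρ : ℂ | ρ ∈ S ∧ f ρ = 0}.Finite) :
    zc f S = ∑ ρ ∈ h.toFinset, (analyticOrderNatAt f ρ : ℝ) := by
  unfold zc
  exact finsum_mem_eq_finite_toFinset_sum _ h

theorem ord_mul {f g : ℂ → ℂ} {s : ℂ} (hf : AnalyticAt ℂ f s) (hg : AnalyticAt ℂ g s)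
    (hf' : analyticOrderAt f s ≠ ⊤) (hg' : analyticOrderAt g s ≠ ⊤) :
    analyticOrderNatAt (fun s => f s * g s) s = analyticOrderNatAt f s + analyticOrderNatAt g s := by
  have h1 : analyticOrderAt (fun s => f s * g s) s = analyticOrderAt f s + analyticOrderAt g s :=
    analyticOrderAt_mul hf hg
  unfold analyticOrderNatAt
  rw [h1, ENat.toNat_add hf' hg']

theorem pf_ZM : T_ZM := by
  refine ⟨?_, ?_⟩
  · intro f g S T hST H hfin
    have hA : {ρ : ℂ | ρ ∈ S ∧ f ρ = 0}.Finite := by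
      refine hfin.subset fun ρ hρ => ⟨hST hρ.1, ?_⟩
      rw [hρ.2, zero_mul]
    rw [zc_eq hA, zc_eq hfin]
    refine ⟨Finset.sum_nonneg fun ρ _ => Nat.cast_nonneg _, ?_, fun hg => ?_⟩
    · calc ∑ ρ ∈ hA.toFinset, (analyticOrderNatAt f ρ : ℝ) ≤
          ∑ ρ ∈ hA.toFinset, (analyticOrderNatAt (fun s => f s * g s) ρ : ℝ) := by
            refine Finset.sum_le_sum fun ρ hρ => ?_
            rw [Finite.mem_toFinset] at hρ
            obtain ⟨h1, h2, h3, h4⟩ := H ρ (hST hρ.1)
            rw [ord_mul h1 h2 h3 h4]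
            push_cast
            linarith [(Nat.cast_nonneg (analyticOrderNatAt g ρ) : (0 : ℝ) ≤ _)]
        _ ≤ ∑ ρ ∈ hfin.toFinset, (analyticOrderNatAt (fun s => f s * g s) ρ : ℝ) := by
            refine Finset.sum_le_sum_of_subset_of_nonneg ?_ fun _ _ _ => Nat.cast_nonneg _
            intro ρ hρ
            rw [Finite.mem_toFinset] at hρ ⊢
            refine ⟨hST hρ.1, ?_⟩
            rw [hρ.2, zero_mul]
    · have hset : {ρ : ℂ | ρ ∈ S ∧ f ρ * g ρ = 0} = {ρ : ℂ | ρ ∈ S ∧ f ρ = 0} := by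
        ext ρ
        constructor
        · rintro ⟨h1, h2⟩
          exact ⟨h1, (mul_eq_zero.1 h2).resolve_right (hg ρ h1)⟩
        · rintro ⟨h1, h2⟩
          exact ⟨h1, by rw [h2, zero_mul]⟩
      have hB : {ρ : ℂ | ρ ∈ S ∧ f ρ * g ρ = 0}.Finite := by
        rw [hset]
        exact hA
      rw [zc_eq hB]
      have e : hB.toFinset = hA.toFinset := by
        ext ρ
        rw [Finite.mem_toFinset, Finite.mem_toFinset, hset]
      rw [e]
      refine Finset.sum_congr rfl fun ρ hρ => ?_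
      rw [Finite.mem_toFinset] at hρ
      obtain ⟨h1, h2, h3, h4⟩ := H ρ (hST hρ.1)
      have h5 : analyticOrderNatAt g ρ = 0 := by
        unfold analyticOrderNatAt
        rw [(h2.analyticOrderAt_eq_zero).2 (hg ρ hρ.1)]
        rfl
      rw [ord_mul h1 h2 h3 h4, h5, add_zero]
  · intro f T H hfin
    have hsub : SZ f 0 T ⊆ {s : ℂ | s ∈ St T ∧ f s = 0} := by
      intro ρ hρ
      exact ⟨⟨hρ.2.2.2.1, hρ.2.2.2.2⟩, hρ.1⟩
    have hF := hfin.subset hsub
    refine ⟨hF, ?_⟩
    rw [zc_eq hfin, ncard_eq_toFinset_card _ hF]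
    calc ((hF.toFinset.card : ℕ) : ℝ) ≤ ((hfin.toFinset.card : ℕ) : ℝ) := by
          have : hF.toFinset ⊆ hfin.toFinset := by
            intro ρ hρ
            rw [Finite.mem_toFinset] at hρ ⊢
            exact hsub hρ
          exact_mod_cast Finset.card_le_card this
      _ = ∑ ρ ∈ hfin.toFinset, (1 : ℝ) := by simp
      _ ≤ _ := by
          refine Finset.sum_le_sum fun ρ hρ => ?_
          rw [Finite.mem_toFinset] at hρ
          obtain ⟨h1, h2⟩ := H ρ hρ.1
          have h3 : analyticOrderAt f ρ ≠ 0 := (h1.analyticOrderAt_ne_zero).2 hρ.2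
          have h4 : 1 ≤ analyticOrderNatAt f ρ := by
            unfold analyticOrderNatAt
            rw [Nat.one_le_iff_ne_zero]
            intro h5
            rcases ENat.toNat_eq_zero.1 h5 with h6 | h6
            · exact h3 h6
            · exact h2 h6
          exact_mod_cast h4

end Pool.Agent.H42.CRZ
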